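import Pool.Agent.H30.SL.Stm

set_option autoImplicit false

namespace Pool.Agent.H70.SL

open Finset Pool.Agent.H30.SL

attribute [local instance 100] LieRing.ofAssociativeRing

/-- the letters of the set `R` as a list -/
noncomputable def lt {D : ℕ} (R : Finset (Fin D)) : List ℕ := R.toList.map Fin.val

theorem span_lie (K : Type) [Field K] {A B C : Set (FreeLieAlgebra K ℕ)}
    (h : ∀ a ∈ A, ∀ b ∈ B, ⁅a, b⁆ ∈ C) {u v : FreeLieAlgebra K ℕ}
    (hu : u ∈ Submodule.span K A) (hv : v ∈ Submodule.span K B) : ⁅u, v⁆ ∈ Submodule.span K C := by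
  induction hu using Submodule.span_induction with
  | mem u hu =>
    induction hv using Submodule.span_induction with
    | mem v hv => exact Submodule.subset_span (h u hu v hv)
    | zero => rw [lie_zero]; exact Submodule.zero_mem _
    | add v1 v2 _ _ hv1 hv2 => rw [lie_add]; exact Submodule.add_mem _ hv1 hv2
    | smul c v _ hv => rw [lie_smul]; exact Submodule.smul_mem _ _ hv
  | zero => rw [zero_lie]; exact Submodule.zero_mem _
  | add v1 v2 _ _ hv1 hv2 => rw [add_lie]; exact Submodule.add_mem _ hv1 hv2
  | smul c v _ hv => rw [smul_lie]; exact Submodule.smul_mem _ _ hv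

theorem expand (K : Type) [Field K] (D : ℕ) (w : Fin D → ℕ) (l : List ℕ)
    (T : FreeLieAlgebra K ℕ) (hT : MW K l T) :
    ∃ Q : Finset (Fin D) → FreeLieAlgebra K ℕ,
      (∀ S, sub K D w S T = ∑ R ∈ S.powerset, Q R) ∧ (∀ R, l.length < R.card → Q R = 0) ∧
      (∀ R, R.card = l.length → Q R ∈ Submodule.span K
        {x | ∃ l' : List ℕ, l'.Perm (lt R) ∧ MW K l' x}) := by
  classical
  induction hT with
  | of i =>
    refine ⟨fun R => ∑ j : Fin D, if w j = i ∧ R = {j} then FreeLieAlgebra.of K (j : ℕ) else 0,
      ?_, ?_, ?_⟩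
    · intro S
      rw [sum_comm]
      unfold sub
      rw [FreeLieAlgebra.lift_of_apply, sum_filter, ← sum_subset (subset_univ S)]
      · apply sum_congr rfl
        intro j hj
        by_cases hw : w j = i
        · rw [if_pos hw]
          rw [sum_eq_single_of_mem ({j} : Finset (Fin D)) (by simpa using hj)]
          · rw [if_pos ⟨hw, rfl⟩]
          · intro b _ hb
            rw [if_neg (fun h => hb h.2)]
        · rw [if_neg hw]
          symm
          apply sum_eq_zero
          intro b _
          rw [if_neg (fun h => hw h.1)]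
      · intro j _ hj
        apply sum_eq_zero
        intro b hb
        rw [if_neg]
        rintro ⟨-, rfl⟩
        exact hj (by simpa using hb)
    · intro R hR
      apply sum_eq_zero
      intro j _
      rw [if_neg]
      rintro ⟨-, rfl⟩
      simp at hR
    · intro R hR
      apply Submodule.sum_mem
      intro j _
      split_ifs with h
      · apply Submodule.subset_span
        refine ⟨[(j : ℕ)], ?_, MW.of _⟩
        rw [h.2, lt, toList_singleton]
        simp
      · exact Submodule.zero_mem _
  | @lie s t x y hx hy ihx ihy =>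
    obtain ⟨Q1, a1, b1, c1⟩ := ihx
    obtain ⟨Q2, a2, b2, c2⟩ := ihy
    refine ⟨fun R => ∑ P : Finset (Fin D) × Finset (Fin D),
      if P.1 ∪ P.2 = R then ⁅Q1 P.1, Q2 P.2⁆ else 0, ?_, ?_, ?_⟩
    · intro S
      have e1 : ∑ R ∈ S.powerset, ∑ P : Finset (Fin D) × Finset (Fin D),
          (if P.1 ∪ P.2 = R then ⁅Q1 P.1, Q2 P.2⁆ else 0) =
          ∑ P ∈ S.powerset ×ˢ S.powerset, ⁅Q1 P.1, Q2 P.2⁆ := by
        rw [sum_comm]
        have e2 : ∀ P : Finset (Fin D) × Finset (Fin D),
            ∑ R ∈ S.powerset, (if P.1 ∪ P.2 = R then ⁅Q1 P.1, Q2 P.2⁆ else 0) =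
              if P ∈ S.powerset ×ˢ S.powerset then ⁅Q1 P.1, Q2 P.2⁆ else 0 := by
          intro P
          rw [sum_ite_eq]
          by_cases hP : P.1 ∪ P.2 ∈ S.powerset
          · rw [if_pos hP, if_pos]
            rw [mem_powerset, union_subset_iff] at hP
            exact mem_product.2 ⟨mem_powerset.2 hP.1, mem_powerset.2 hP.2⟩
          · rw [if_neg hP, if_neg]
            intro h
            rw [mem_product, mem_powerset, mem_powerset] at h
            exact hP (mem_powerset.2 (union_subset h.1 h.2))
        rw [sum_congr rfl (fun P _ => e2 P), ← sum_filter]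
        apply sum_congr _ (fun _ _ => rfl)
        ext P
        rw [mem_filter]
        exact ⟨fun h => h.2, fun h => ⟨mem_univ _, h⟩⟩
      rw [LieHom.map_lie, a1, a2, sum_lie_sum, e1, sum_product]
    · intro R hR
      apply sum_eq_zero
      intro P _
      split_ifs with h
      · rw [List.length_append] at hR
        have h1 : R.card ≤ P.1.card + P.2.card := by rw [← h]; exact card_union_le _ _
        rcases Nat.lt_or_ge s.length P.1.card with h2 | h2
        · rw [b1 _ h2, zero_lie]
        · rw [b2 P.2 (by omega), lie_zero]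
      · rfl
    · intro R hR
      apply Submodule.sum_mem
      intro P _
      split_ifs with h
      · rw [List.length_append] at hR
        have h1 := card_union_add_card_inter P.1 P.2
        rw [h] at h1
        rcases Nat.lt_or_ge s.length P.1.card with h2 | h2
        · rw [b1 _ h2, zero_lie]
          exact Submodule.zero_mem _
        rcases Nat.lt_or_ge t.length P.2.card with h3 | h3
        · rw [b2 _ h3, lie_zero]
          exact Submodule.zero_mem _
        have h4 : P.1.card = s.length := by omega
        have h5 : P.2.card = t.length := by omega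
        have h6 : P.1 ∩ P.2 = ∅ := by rw [← card_eq_zero]; omega
        have h7 : (lt P.1 ++ lt P.2).Perm (lt R) := by
          unfold lt
          rw [← List.map_append]
          apply List.Perm.map
          rw [List.perm_ext_iff_of_nodup]
          · intro a
            rw [List.mem_append, mem_toList, mem_toList, mem_toList, ← h, mem_union]
          · apply List.Nodup.append (nodup_toList _) (nodup_toList _)
            intro a ha hb
            have h8 : a ∈ P.1 ∩ P.2 := mem_inter.2 ⟨mem_toList.1 ha, mem_toList.1 hb⟩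
            rw [h6] at h8
            exact absurd h8 (notMem_empty a)
          · exact nodup_toList _
        refine span_lie K ?_ (c1 _ h4) (c2 _ h5)
        rintro u ⟨l1, p1, m1⟩ v ⟨l2, p2, m2⟩
        exact ⟨l1 ++ l2, (p1.append p2).trans h7, MW.lie m1 m2⟩
      · exact Submodule.zero_mem _

theorem Ph_eq (K : Type) [Field K] (D : ℕ) (w : Fin D → ℕ) (T : FreeLieAlgebra K ℕ)
    (Q : Finset (Fin D) → FreeLieAlgebra K ℕ)
    (hQ : ∀ S, sub K D w S T = ∑ R ∈ S.powerset, Q R) : Ph K D w T = Q univ := by
  classical
  unfold Ph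
  have h1 : ∑ S : Finset (Fin D), (-1 : K) ^ (D - S.card) • sub K D w S T =
      ∑ U : Finset (Fin D), (-1 : K) ^ U.card • sub K D w Uᶜ T := by
    refine Finset.sum_bij' (fun S _ => Sᶜ) (fun U _ => Uᶜ) (fun _ _ => mem_univ _)
      (fun _ _ => mem_univ _) (fun _ _ => compl_compl _) (fun _ _ => compl_compl _) ?_
    intro S _
    rw [compl_compl, card_compl, Fintype.card_fin]
  rw [h1]
  have h2 : ∀ U : Finset (Fin D), (-1 : K) ^ U.card • sub K D w Uᶜ T =
      ∑ R : Finset (Fin D), (if U ⊆ Rᶜ then (-1 : K) ^ U.card else 0) • Q R := by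
    intro U
    rw [hQ, smul_sum, ← sum_subset (subset_univ (Uᶜ.powerset))]
    · apply sum_congr rfl
      intro R hR
      rw [if_pos]
      rw [mem_powerset] at hR
      exact subset_compl_comm.1 hR
    · intro R _ hR
      rw [if_neg, zero_smul]
      intro h
      exact hR (mem_powerset.2 (subset_compl_comm.1 h))
  rw [sum_congr rfl (fun U _ => h2 U), sum_comm]
  have h3 : ∀ R : Finset (Fin D),
      ∑ U : Finset (Fin D), (if U ⊆ Rᶜ then (-1 : K) ^ U.card else 0) • Q R =
        if R = univ then Q R else 0 := by
    intro R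
    rw [← sum_smul]
    have h4 : ∑ U : Finset (Fin D), (if U ⊆ Rᶜ then (-1 : K) ^ U.card else 0) =
        ∑ U ∈ Rᶜ.powerset, (-1 : K) ^ U.card := by
      rw [← sum_filter]
      apply sum_congr
      · ext U
        rw [mem_filter, mem_powerset]
        simp
      · intro _ _
        rfl
    have h5 : ∑ U ∈ Rᶜ.powerset, (-1 : K) ^ U.card = ((if Rᶜ = ∅ then 1 else 0 : ℤ) : K) := by
      rw [← sum_powerset_neg_one_pow_card]
      push_cast
      rfl
    rw [h4, h5]
    by_cases hR : R = univ
    · rw [if_pos hR, if_pos (by rw [hR, compl_univ])]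
      simp
    · rw [if_neg hR, if_neg (by rwa [compl_eq_empty_iff])]
      simp
  rw [sum_congr rfl (fun R _ => h3 R), sum_ite_eq' univ univ Q, if_pos (mem_univ _)]

/-- POL: the first two clauses of `S_POL`. -/
theorem t_POL (K : Type) [Field K] (D : ℕ) (l : List ℕ) (T : FreeLieAlgebra K ℕ) (hT : MW K l T) :
    (l.length < D → ∀ w : Fin D → ℕ, Ph K D w T = 0) ∧
    (l.length = D → ∀ w : Fin D → ℕ,
      Ph K D w T ∈ Submodule.span K {x | ∃ l' : List ℕ, l'.Perm (List.range D) ∧ MW K l' x}) := by
  constructor
  · intro h w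
    obtain ⟨Q, h1, h2, h3⟩ := expand K D w l T hT
    rw [Ph_eq K D w T Q h1]
    apply h2
    rwa [card_univ, Fintype.card_fin]
  · intro h w
    obtain ⟨Q, h1, h2, h3⟩ := expand K D w l T hT
    rw [Ph_eq K D w T Q h1]
    have h4 := h3 univ (by rw [card_univ, Fintype.card_fin, h])
    refine Submodule.span_mono ?_ h4
    rintro x ⟨l', p, m⟩
    refine ⟨l', p.trans ?_, m⟩
    unfold lt
    rw [List.perm_ext_iff_of_nodup]
    · intro a
      rw [List.mem_map, List.mem_range]
      constructor
      · rintro ⟨b, -, rfl⟩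
        exact b.2
      · intro ha
        exact ⟨⟨a, ha⟩, by simp, rfl⟩
    · exact (nodup_toList _).map Fin.val_injective
    · exact List.nodup_range

end Pool.Agent.H70.SL
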